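import Pool.Agent.H56.CF.Targets

/-!
# (GNR) generators in all slots (MP_347b49_nt).  helper99
-/

set_option autoImplicit false

open NumberField Module
open scoped nonZeroDivisors

namespace Pool.Agent.H99.CF

open Pool.Agent.H56.CF Pool.Agent.H91.CF Pool.Agent.H28.RC Pool.Agent.H24.Cls

theorem pf_GNR (hE : T_EMB) (hM : T_MNK) : T_GNR := by
  intro K _ _ h2 hd c J hJ
  obtain ⟨⟨σ, τ, hστ⟩, hN⟩ := hE K h2 hd
  have hNn := hN σ τ hστ
  have hD : (0 : ℝ) < discr K := by exact_mod_cast hd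
  have hsD : 0 < √(discr K : ℝ) := Real.sqrt_pos.2 hD
  have hJ0 : (J : Ideal (𝓞 K)) ≠ ⊥ := nonZeroDivisors.coe_ne_zero J
  have hNJ : (0 : ℝ) < Ideal.absNorm (J : Ideal (𝓞 K)) := by
    have : Ideal.absNorm (J : Ideal (𝓞 K)) ≠ 0 := by
      rw [Ne, Ideal.absNorm_eq_zero_iff]
      exact hJ0
    exact_mod_cast Nat.pos_of_ne_zero this
  set k : ℝ := √(2 * √(discr K : ℝ) * Ideal.absNorm (J : Ideal (𝓞 K))) with hk
  have hk0 : 0 < k := Real.sqrt_pos.2 (by positivity)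
  have hk2 : k * k = 2 * √(discr K : ℝ) * Ideal.absNorm (J : Ideal (𝓞 K)) :=
    Real.mul_self_sqrt (by positivity)
  refine ⟨σ, k, hk0, fun j => ?_⟩
  have hej : 0 < Real.exp j := Real.exp_pos _
  obtain ⟨α, hαJ, hα0, h3, h4⟩ := hM K h2 hd σ τ hστ J hJ0 (Real.exp j) hej
  rw [← hk] at h3 h4
  have hdvd : (J : Ideal (𝓞 K)) ∣ Ideal.span {α} := Ideal.dvd_span_singleton.2 hαJ
  obtain ⟨I, hI⟩ := hdvd
  have hI' : I * (J : Ideal (𝓞 K)) = Ideal.span {α} := by rw [hI, mul_comm]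
  have hI0 : I ≠ ⊥ := by
    rintro rfl
    rw [Ideal.bot_mul] at hI'
    exact hα0 (Ideal.span_singleton_eq_bot.1 hI'.symm)
  have hI1 : I ∈ (Ideal (𝓞 K))⁰ := mem_nonZeroDivisors_iff_ne_zero.2 hI0
  have hprod : (Ideal.absNorm I : ℝ) * Ideal.absNorm (J : Ideal (𝓞 K)) = |σ α * τ α| := by
    rw [← hNn α, ← hI', map_mul]
    push_cast
    ring
  have hσ0 : 0 < |σ (α : K)| := by
    rw [abs_pos]
    intro h
    apply hα0
    have := (map_eq_zero σ).1 h
    exact_mod_cast this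
  have hτ0 : 0 < |τ (α : K)| := by
    rw [abs_pos]
    intro h
    apply hα0
    have := (map_eq_zero τ).1 h
    exact_mod_cast this
  rw [abs_mul] at hprod
  have h5 : |σ (α : K)| * |τ (α : K)| ≤ k * k := by
    calc |σ (α : K)| * |τ (α : K)| ≤ (Real.exp j * k) * (k / Real.exp j) :=
          mul_le_mul h3 h4 hτ0.le (by positivity)
      _ = k * k := by
          field_simp
  refine ⟨⟨I, hI1⟩, α, ?_, ?_, hα0, hI', ?_, h3⟩
  · have h6 : ClassGroup.mk0 (⟨I, hI1⟩ * J) = 1 := by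
      rw [ClassGroup.mk0_eq_one_iff]
      show (I * (J : Ideal (𝓞 K))).IsPrincipal
      rw [hI']
      exact ⟨α, rfl⟩
    rw [map_mul, hJ] at h6
    exact mul_inv_eq_one.1 h6
  · show (Ideal.absNorm I : ℝ) ≤ 2 * √(discr K : ℝ)
    have h6 : (Ideal.absNorm I : ℝ) * Ideal.absNorm (J : Ideal (𝓞 K)) ≤
        (2 * √(discr K : ℝ)) * Ideal.absNorm (J : Ideal (𝓞 K)) := by
      rw [hprod, ← hk2]
      exact h5
    exact le_of_mul_le_mul_right h6 hNJ
  · show Real.exp j * k * ((Ideal.absNorm I : ℝ) / (2 * √(discr K : ℝ))) ≤ |σ (α : K)|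
    have h6 : Real.exp j * k * ((Ideal.absNorm I : ℝ) / (2 * √(discr K : ℝ))) * (k / Real.exp j) =
        |σ (α : K)| * |τ (α : K)| := by
      rw [← hprod]
      field_simp
      rw [pow_two, hk2]
      ring
    have h7 : 0 < k / Real.exp j := by positivity
    have h8 : Real.exp j * k * ((Ideal.absNorm I : ℝ) / (2 * √(discr K : ℝ))) * (k / Real.exp j) ≤
        |σ (α : K)| * (k / Real.exp j) := by
      rw [h6]
      exact mul_le_mul_of_nonneg_left h4 hσ0.le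
    exact le_of_mul_le_mul_right h8 h7

end Pool.Agent.H99.CF
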