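import Pool.Agent.H56.CF.Targets

/-!
# (MHN) Minkowski's bound for the class number (MP_347b49_nt).  helper99
-/

set_option autoImplicit false

open NumberField Module
open scoped nonZeroDivisors

namespace Pool.Agent.H99.CF

open Pool.Agent.H56.CF Pool.Agent.H91.CF Pool.Agent.H28.RC Pool.Agent.H24.Cls

theorem pf_MHN : T_MHN := by
  classical
  intro K _ _ h2
  have hex : ∀ C : ClassGroup (𝓞 K), ∃ I : (Ideal (𝓞 K))⁰, ClassGroup.mk0 I = C ∧
      (Ideal.absNorm (I : Ideal (𝓞 K)) : ℝ) ≤ 2 * √|(discr K : ℝ)| := by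
    intro C
    obtain ⟨I, hI, hI2⟩ := exists_ideal_in_class_of_norm_le C
    refine ⟨I, hI, hI2.trans ?_⟩
    have h3 : InfinitePlace.nrComplexPlaces K ≤ 1 := by
      have h1 := InfinitePlace.card_add_two_mul_card_eq_rank K
      rw [h2] at h1
      omega
    have hpi : (4 / Real.pi) ^ InfinitePlace.nrComplexPlaces K ≤ 4 / 3 := by
      have h5 : 4 / Real.pi ≤ 4 / 3 := by
        apply div_le_div_of_nonneg_left (by norm_num) (by norm_num) Real.pi_gt_three.le
      rcases (by omega : InfinitePlace.nrComplexPlaces K = 0 ∨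
        InfinitePlace.nrComplexPlaces K = 1) with h4 | h4
      · rw [h4]
        norm_num
      · rw [h4, pow_one]
        exact h5
    rw [h2]
    have h6 : ((Nat.factorial 2 : ℕ) : ℝ) / ((2 : ℕ) : ℝ) ^ 2 = 1 / 2 := by
      norm_num [Nat.factorial]
    rw [h6]
    have h7 : 0 ≤ √|(discr K : ℝ)| := Real.sqrt_nonneg _
    calc (4 / Real.pi) ^ InfinitePlace.nrComplexPlaces K * (1 / 2 * √|(discr K : ℝ)|)
        ≤ 4 / 3 * (1 / 2 * √|(discr K : ℝ)|) := by
          apply mul_le_mul_of_nonneg_right hpi (by positivity)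
      _ ≤ 2 * √|(discr K : ℝ)| := by linarith
  choose f hf1 hf2 using hex
  have hfin : ∀ n : ℕ, {I : Ideal (𝓞 K) | Ideal.absNorm I = n}.Finite := fun n =>
    Ideal.finite_setOfPred_absNorm_eq n
  set N : ℕ := ⌊2 * √|(discr K : ℝ)|⌋₊ with hN
  have h3 : classNumber K ≤ ((Finset.Icc 1 N).biUnion fun n => (hfin n).toFinset).card := by
    have h4 : classNumber K = (Finset.univ : Finset (ClassGroup (𝓞 K))).card := by
      rw [Finset.card_univ]
      rfl
    rw [h4]
    refine Finset.card_le_card_of_injOn (fun C => (f C : Ideal (𝓞 K))) ?_ ?_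
    · intro C _
      simp only [Finset.coe_biUnion, Set.mem_iUnion, Finset.mem_coe, Set.Finite.mem_toFinset]
      refine ⟨Ideal.absNorm (f C : Ideal (𝓞 K)), ?_, rfl⟩
      rw [Finset.mem_Icc]
      constructor
      · have h5 : Ideal.absNorm (f C : Ideal (𝓞 K)) ≠ 0 := by
          rw [Ne, Ideal.absNorm_eq_zero_iff]
          exact nonZeroDivisors.coe_ne_zero (f C)
        omega
      · rw [hN]
        exact Nat.le_floor (hf2 C)
    · intro C _ C' _ h
      have h5 : f C = f C' := Subtype.ext h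
      rw [← hf1 C, ← hf1 C', h5]
  have h4 : ((Finset.Icc 1 N).biUnion fun n => (hfin n).toFinset).card ≤
      ∑ n ∈ Finset.Icc 1 N, aK K n := by
    refine Finset.card_biUnion_le.trans (Finset.sum_le_sum fun n _ => ?_)
    unfold aK
    rw [Set.ncard_eq_toFinset_card _ (hfin n)]
  exact_mod_cast h3.trans h4

end Pool.Agent.H99.CF
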