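import Pool.Agent.H31.CF.U3
import Pool.Agent.H96.CN.LOP

/-!
# (GRM) the Gram identity for the kernel (MP_347b49_nt).  helper99
-/

set_option autoImplicit false

open MeasureTheory Set Filter
open scoped Real Matrix MatrixGroups

namespace Pool.Agent.H99.CFU

open Pool.Agent.H31.CN Pool.Agent.H91.CF Pool.Agent.H31.CF
open Pool.Agent.H96.CN (Av Per2 Av_prod)

lemma grm_dvd_iff {q x y : ℤ} (h : q ∣ x - y) : q ∣ x ↔ q ∣ y := by
  constructor
  · intro h1
    have h2 : y = x - (x - y) := by ring
    rw [h2]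
    exact dvd_sub h1 h
  · intro h1
    have h2 : x = y + (x - y) := by ring
    rw [h2]
    exact dvd_add h1 h

lemma kp_per (f p : ℕ) (Q : QF) (v : ℤ × ℤ) (a b a' b' : ℤ) (hk : f.factorization p ≠ 0)
    (ha : ((p ^ f.factorization p : ℕ) : ℤ) ∣ a - a')
    (hb : ((p ^ f.factorization p : ℕ) : ℤ) ∣ b - b') :
    kp f p Q (a, b) v = kp f p Q (a', b') v := by
  push_cast at ha hb
  have hpa : (p : ℤ) ∣ a - a' := (dvd_pow_self _ hk).trans ha
  have hpb : (p : ℤ) ∣ b - b' := (dvd_pow_self _ hk).trans hb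
  have h1 : (p : ℤ) ∣ val Q (a, b) ↔ (p : ℤ) ∣ val Q (a', b') := by
    apply grm_dvd_iff
    have e : val Q (a, b) - val Q (a', b') = (a - a') * (Q.1 * (a + a') + Q.2.1 * b) +
        (b - b') * (Q.2.1 * a' + Q.2.2 * (b + b')) := by
      simp only [val]
      ring
    rw [e]
    exact dvd_add (Dvd.dvd.mul_right hpa _) (Dvd.dvd.mul_right hpb _)
  have h2 : ∀ j : ℕ, j ≤ f.factorization p →
      ((p : ℤ) ^ j ∣ dtm (a, b) v ↔ (p : ℤ) ^ j ∣ dtm (a', b') v) := by
    intro j hj
    apply grm_dvd_iff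
    have e : dtm (a, b) v - dtm (a', b') v = (a - a') * v.2 - (b - b') * v.1 := by
      simp only [dtm]
      ring
    rw [e]
    exact dvd_sub (Dvd.dvd.mul_right ((pow_dvd_pow _ hj).trans ha) _)
      (Dvd.dvd.mul_right ((pow_dvd_pow _ hj).trans hb) _)
  unfold kp
  simp only [h1, h2 _ (le_refl _), h2 _ (Nat.sub_le _ 1)]

theorem pf_GRM (hGRL : T_GRL) : T_GRM := by
  intro f Q v v' hf
  have hf0 : f ≠ 0 := by omega
  have hprod : ∏ p ∈ f.primeFactors, p ^ f.factorization p = f := by
    have h := Nat.prod_factorization_pow_eq_self hf0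
    rw [Finsupp.prod, Nat.support_factorization] at h
    exact h
  have htot : ∏ p ∈ f.primeFactors, (p ^ f.factorization p).totient = f.totient := by
    have h := Nat.totient_eq_prod_factorization hf0
    rw [Finsupp.prod, Nat.support_factorization] at h
    rw [h]
    refine Finset.prod_congr rfl fun p hp => ?_
    have hpp := Nat.prime_of_mem_primeFactors hp
    have hk : 0 < f.factorization p :=
      hpp.factorization_pos_of_dvd hf0 (Nat.dvd_of_mem_primeFactors hp)
    exact Nat.totient_prime_pow hpp hk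
  set h : ℕ → ℤ → ℤ → ℝ := fun p a b => kp f p Q (a, b) v * kp f p Q (a, b) v' with hh
  have hq : ∀ p ∈ f.primeFactors, 0 < p ^ f.factorization p := fun p hp =>
    pow_pos (Nat.prime_of_mem_primeFactors hp).pos _
  have hc : ∀ p ∈ f.primeFactors, ∀ r ∈ f.primeFactors, p ≠ r →
      Nat.Coprime (p ^ f.factorization p) (r ^ f.factorization r) := by
    intro p hp r hr hpr
    apply Nat.Coprime.pow
    exact (Nat.coprime_primes (Nat.prime_of_mem_primeFactors hp)
      (Nat.prime_of_mem_primeFactors hr)).2 hpr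
  have hper : ∀ p ∈ f.primeFactors, Per2 (p ^ f.factorization p) (h p) := by
    intro p hp a b a' b' ha hb
    have hpp := Nat.prime_of_mem_primeFactors hp
    have hk : f.factorization p ≠ 0 :=
      (hpp.factorization_pos_of_dvd hf0 (Nat.dvd_of_mem_primeFactors hp)).ne'
    rw [hh]
    simp only
    rw [kp_per f p Q v a b a' b' hk ha hb, kp_per f p Q v' a b a' b' hk ha hb]
  have key := (Av_prod f.primeFactors (fun p => p ^ f.factorization p) hq hc h hper).1
  rw [hprod] at key
  unfold Av at key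
  have hfR : ((f : ℕ) : ℝ) ≠ 0 := by exact_mod_cast hf0
  rw [Finset.prod_mul_distrib] at key
  have h1 : ∏ p ∈ f.primeFactors, (1 / ((p ^ f.factorization p : ℕ) : ℝ) ^ 2) =
      1 / (f : ℝ) ^ 2 := by
    rw [Finset.prod_div_distrib, Finset.prod_const_one, Finset.prod_pow]
    congr 2
    exact_mod_cast hprod
  rw [h1] at key
  have h2 := mul_left_cancel₀ (by positivity) key
  have h3 : ∀ a b : ℤ, kern f Q (a, b) v * kern f Q (a, b) v' = ∏ p ∈ f.primeFactors, h p a b := by
    intro a b
    unfold kern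
    rw [← Finset.prod_mul_distrib]
  simp only [h3]
  rw [h2]
  have h4 : ∀ p ∈ f.primeFactors, ∑ B ∈ Finset.range (p ^ f.factorization p),
      ∑ C ∈ Finset.range (p ^ f.factorization p), h p (B : ℤ) (C : ℤ) =
      (Nat.totient (p ^ f.factorization p) : ℝ) * kp f p Q v v' := by
    intro p hp
    exact (hGRL f p Q v v' hf (Nat.prime_of_mem_primeFactors hp)
      (Nat.dvd_of_mem_primeFactors hp)).symm
  rw [Finset.prod_congr rfl h4, Finset.prod_mul_distrib]
  congr 1
  rw [← htot]
  push_cast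
  rfl

end Pool.Agent.H99.CFU
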