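import Pool.Agent.H31.CF.U4

/-!
# (SL2) change of the level in the unfolded sum (MP_347b49_nt).  helper99
-/

set_option autoImplicit false

open MeasureTheory Set Filter
open scoped Real

namespace Pool.Agent.H99.CFU

open Pool.Agent.H31.CN Pool.Agent.H91.CF Pool.Agent.H31.CF

lemma sl2_block (a b : ℕ) (H : ℕ → ℝ) :
    ∑ k ∈ Finset.range (a * b), H k = ∑ i ∈ Finset.range a, ∑ r ∈ Finset.range b, H (i * b + r) := by
  induction a with
  | zero => simp
  | succ a ih =>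
    rw [Nat.succ_mul, Finset.sum_range_add, ih, Finset.sum_range_succ]

/-- the multiples of `m` -/
lemma sl2_mult (m n : ℕ) (hm : 1 ≤ m) (g : ℕ → ℝ) :
    ∑ t ∈ Finset.range (n * m), (if m ∣ t then g (t / m) else 0) = ∑ b ∈ Finset.range n, g b := by
  rw [sl2_block n m (fun t => if m ∣ t then g (t / m) else 0)]
  refine Finset.sum_congr rfl fun i _ => ?_
  rw [Finset.sum_eq_single_of_mem 0 (Finset.mem_range.2 hm)]
  · rw [add_zero, if_pos (Dvd.intro_left i rfl), Nat.mul_div_cancel _ (by omega)]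
  · intro r hr hr0
    rw [if_neg]
    intro h
    have h1 : m ∣ r := (Nat.dvd_add_right (Dvd.intro_left i rfl)).1 h
    exact hr0 (Nat.eq_zero_of_dvd_of_lt h1 (Finset.mem_range.1 hr))

theorem pf_SL2 : T_SL2 := by
  intro d s A Δ φ Z hd hs hA hZ
  set M : ℕ := 2 * (d ^ 2 * A) with hM
  have hZk : ∀ (k : ℕ) (t : ℤ), Z (t + M * k) = Z t := by
    intro k
    induction k with
    | zero =>
      intro t
      simp
    | succ k ih =>
      intro t
      have h1 : t + (M : ℤ) * ((k + 1 : ℕ) : ℤ) = (t + M * k) + 2 * (d ^ 2 * A : ℕ) := by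
        rw [hM]
        push_cast
        ring
      rw [h1, hZ, ih]
  set g : ℕ → ℝ := fun b => if 4 * A ∣ b ^ 2 + Δ ∧
      IsCoprime (((b ^ 2 + Δ) / (4 * A) : ℕ) : ℤ) (d : ℤ) then
      φ b (((b ^ 2 + Δ) / (4 * A) : ℕ) : ℤ) * Z ((d : ℤ) * s * b) else 0 with hg
  have hds : 1 ≤ d * s := Nat.mul_pos hd hs
  set H : ℕ → ℝ := fun t => if d * s ∣ t then g (t / (d * s)) else 0 with hH
  have hL : ∑ b ∈ (Finset.range (2 * A * d)).filter (fun b => 4 * A ∣ b ^ 2 + Δ ∧
        IsCoprime (((b ^ 2 + Δ) / (4 * A) : ℕ) : ℤ) (d : ℤ)),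
      φ b (((b ^ 2 + Δ) / (4 * A) : ℕ) : ℤ) * Z ((d : ℤ) * s * b) =
      ∑ t ∈ Finset.range (s * M), H t := by
    have h1 : s * M = (2 * A * d) * (d * s) := by
      rw [hM]
      ring
    rw [h1, hH, sl2_mult (d * s) (2 * A * d) hds g, Finset.sum_filter]
  rw [hL, sl2_block s M H, Finset.sum_comm, Finset.sum_filter]
  refine Finset.sum_congr rfl fun B hB => ?_
  have hd0 : d ≠ 0 := by omega
  have hs0 : s ≠ 0 := by omega
  have hA0 : A ≠ 0 := by omega
  -- the terms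
  have hterm : ∀ k : ℕ, H (k * M + B) =
      if 4 * (d ^ 2 * A) ∣ B ^ 2 + (d * s) ^ 2 * Δ then
        (if ((d * s : ℕ) : ℤ) ∣ (B : ℤ) + 2 * ((d ^ 2 * A : ℕ) : ℤ) * k ∧ ((s ^ 2 : ℕ) : ℤ) ∣
          (((B ^ 2 + (d * s) ^ 2 * Δ) / (4 * (d ^ 2 * A)) : ℕ) : ℤ) + (B : ℤ) * k +
            ((d ^ 2 * A : ℕ) : ℤ) * (k : ℤ) ^ 2 ∧
          IsCoprime (((((B ^ 2 + (d * s) ^ 2 * Δ) / (4 * (d ^ 2 * A)) : ℕ) : ℤ) + (B : ℤ) * k +
            ((d ^ 2 * A : ℕ) : ℤ) * (k : ℤ) ^ 2) / (s ^ 2 : ℕ)) (d : ℤ) then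
        φ (((B : ℤ) + 2 * ((d ^ 2 * A : ℕ) : ℤ) * k) / (d * s : ℕ))
          (((((B ^ 2 + (d * s) ^ 2 * Δ) / (4 * (d ^ 2 * A)) : ℕ) : ℤ) + (B : ℤ) * k +
            ((d ^ 2 * A : ℕ) : ℤ) * (k : ℤ) ^ 2) / (s ^ 2 : ℕ)) else 0) * Z B else 0 := by
    intro k
    set t : ℕ := k * M + B with ht
    have htZ : (B : ℤ) + 2 * ((d ^ 2 * A : ℕ) : ℤ) * k = (t : ℤ) := by
      rw [ht, hM]
      push_cast
      ring
    have hZt : Z (t : ℤ) = Z B := by
      have h1 : (t : ℤ) = (B : ℤ) + M * k := by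
        rw [ht]
        push_cast
        ring
      rw [h1, hZk]
    rw [htZ]
    have hcastdvd : ((d * s : ℕ) : ℤ) ∣ (t : ℤ) ↔ d * s ∣ t := Int.natCast_dvd_natCast
    by_cases hdt : d * s ∣ t
    · -- `t` is a multiple
      obtain ⟨b, hb⟩ := hdt
      have hHt : H t = g b := by
        rw [hH]
        simp only
        rw [if_pos (Dvd.intro _ hb.symm), hb, Nat.mul_div_cancel_left _ (by omega)]
      have hZb : Z ((d : ℤ) * s * b) = Z B := by
        rw [← hZt, hb]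
        push_cast
        rfl
      have htd : (t : ℤ) / ((d * s : ℕ) : ℤ) = b := by
        rw [hb]
        push_cast
        rw [mul_comm ((d : ℤ) * s) b]
        apply Int.mul_ediv_cancel
        exact_mod_cast (by omega : d * s ≠ 0)
      -- the relation
      have hrel : ((t : ℤ)) ^ 2 + (d * s) ^ 2 * Δ = (d * s) ^ 2 * ((b : ℤ) ^ 2 + Δ) := by
        rw [hb]
        push_cast
        ring
      have hBt : ((t : ℤ)) ^ 2 + (d * s) ^ 2 * Δ = (B : ℤ) ^ 2 + (d * s) ^ 2 * Δ +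
          4 * (d ^ 2 * A) * ((B : ℤ) * k + ((d ^ 2 * A : ℕ) : ℤ) * (k : ℤ) ^ 2) := by
        rw [← htZ]
        push_cast
        ring
      by_cases h4 : 4 * (d ^ 2 * A) ∣ B ^ 2 + (d * s) ^ 2 * Δ
      · rw [if_pos h4, hHt]
        obtain ⟨C, hC⟩ := h4
        have hCd : (B ^ 2 + (d * s) ^ 2 * Δ) / (4 * (d ^ 2 * A)) = C := by
          rw [hC]
          apply Nat.mul_div_cancel_left
          positivity
        rw [hCd]
        have hCZ : (B : ℤ) ^ 2 + (d * s) ^ 2 * Δ = 4 * (d ^ 2 * A) * C := by exact_mod_cast hC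
        set Ct : ℤ := (C : ℤ) + (B : ℤ) * k + ((d ^ 2 * A : ℕ) : ℤ) * (k : ℤ) ^ 2 with hCt
        have hmain : (s : ℤ) ^ 2 * ((b : ℤ) ^ 2 + Δ) = 4 * A * Ct := by
          have h5 : (d : ℤ) ^ 2 * ((s : ℤ) ^ 2 * ((b : ℤ) ^ 2 + Δ)) = d ^ 2 * (4 * A * Ct) := by
            have h6 := hrel.symm.trans (hBt.trans (congrArg (fun x => x + 4 * (d ^ 2 * A) *
              ((B : ℤ) * k + ((d ^ 2 * A : ℕ) : ℤ) * (k : ℤ) ^ 2)) hCZ))
            rw [hCt]
            linear_combination h6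
          exact mul_left_cancel₀ (pow_ne_zero 2 (by exact_mod_cast hd0)) h5
        have hsne : ((s ^ 2 : ℕ) : ℤ) ≠ 0 := by exact_mod_cast pow_ne_zero 2 hs0
        by_cases h5 : ((s ^ 2 : ℕ) : ℤ) ∣ Ct
        · obtain ⟨c, hc⟩ := h5
          have hc4 : (b : ℤ) ^ 2 + Δ = 4 * A * c := by
            have h6 : (s : ℤ) ^ 2 * ((b : ℤ) ^ 2 + Δ) = s ^ 2 * (4 * A * c) := by
              rw [hmain, hc]
              push_cast
              ring
            exact mul_left_cancel₀ (pow_ne_zero 2 (by exact_mod_cast hs0)) h6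
          have hc0 : 0 ≤ c := by
            have h7 : (0 : ℤ) ≤ 4 * A * c := by
              rw [← hc4]
              positivity
            have h8 : (0 : ℤ) < 4 * A := by positivity
            exact nonneg_of_mul_nonneg_right h7 h8
          obtain ⟨c', rfl⟩ := Int.eq_ofNat_of_zero_le hc0
          have hc5 : b ^ 2 + Δ = 4 * A * c' := by exact_mod_cast hc4
          have hq : (b ^ 2 + Δ) / (4 * A) = c' := by
            rw [hc5]
            apply Nat.mul_div_cancel_left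
            positivity
          have hq2 : Ct / ((s ^ 2 : ℕ) : ℤ) = c' := by
            rw [hc]
            exact Int.mul_ediv_cancel_left _ hsne
          rw [hg]
          simp only
          rw [hq, hq2, htd, hZb]
          by_cases h6 : IsCoprime (c' : ℤ) (d : ℤ)
          · rw [if_pos ⟨⟨c', hc5⟩, h6⟩, if_pos ⟨by rw [hcastdvd]; exact ⟨b, hb⟩, ⟨_, hc⟩, h6⟩]
          · rw [if_neg (fun h => h6 h.2), if_neg (fun h => h6 h.2.2), zero_mul]
        · rw [if_neg (fun h => h5 h.2.1), zero_mul, hg]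
          simp only
          rw [if_neg]
          rintro ⟨⟨c, hc⟩, -⟩
          apply h5
          refine ⟨c, ?_⟩
          have hc4 : (b : ℤ) ^ 2 + Δ = 4 * A * c := by exact_mod_cast hc
          rw [hc4] at hmain
          have h8 : (4 * (A : ℤ)) ≠ 0 := by positivity
          apply mul_left_cancel₀ h8
          rw [← hmain]
          push_cast
          ring
      · rw [if_neg h4, hHt, hg]
        simp only
        rw [if_neg]
        rintro ⟨⟨c, hc⟩, -⟩
        apply h4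
        have hc4 : (b : ℤ) ^ 2 + Δ = 4 * A * c := by exact_mod_cast hc
        have h5 : ((4 * (d ^ 2 * A) : ℕ) : ℤ) ∣ ((B ^ 2 + (d * s) ^ 2 * Δ : ℕ) : ℤ) := by
          refine ⟨s ^ 2 * c - ((B : ℤ) * k + ((d ^ 2 * A : ℕ) : ℤ) * (k : ℤ) ^ 2), ?_⟩
          push_cast
          push_cast at hBt
          rw [hc4] at hrel
          linear_combination hrel - hBt
        exact_mod_cast h5
    · have hHt : H t = 0 := by
        rw [hH]
        simp only
        rw [if_neg hdt]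
      rw [hHt]
      split_ifs with h4 h5
      · exact absurd (hcastdvd.1 h5.1) hdt
      · rw [zero_mul]
      · rfl
  simp only [hterm]
  by_cases h4 : 4 * (d ^ 2 * A) ∣ B ^ 2 + (d * s) ^ 2 * Δ
  · simp only [if_pos h4]
    rw [← Finset.sum_mul]
    congr 1
    unfold ws
    rw [if_pos (Dvd.intro _ rfl)]
  · simp only [if_neg h4]
    rw [Finset.sum_const_zero]

end Pool.Agent.H99.CFU
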