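import Pool.Agent.H37.CF.Basic

/-!
# (CLA) from the ring class group to the ideal class group (MP_347b49_nt).  helper99
-/

set_option autoImplicit false

open NumberField
open scoped nonZeroDivisors

namespace Pool.Agent.H99.CF

open Pool.Agent.H31.CN Pool.Agent.H95.CF Pool.Agent.H28.RC Pool.Agent.H37.CF

theorem pf_CLA (hCPI : T_CPI) : T_CLA := by
  intro K _ _ f G _ cl hf h
  choose F hF hcl using h.sur
  have hwd : ∀ I J : Ideal (𝓞 K), Pr K f I → Pr K f J → cl I = cl J →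
      Pool.Agent.H24.Cls.cl I = Pool.Agent.H24.Cls.cl J := by
    intro I J hI hJ hIJ
    obtain ⟨a, b, ha, hb, hab⟩ := (h.eqv I J hI hJ).1 hIJ
    have ha0 : Ideal.span {a} ≠ (0 : Ideal (𝓞 K)) := ha.1.1
    have hb0 : Ideal.span {b} ≠ (0 : Ideal (𝓞 K)) := hb.1.1
    have h1 := congrArg Pool.Agent.H24.Cls.cl hab
    rw [Pool.Agent.H24.Cls.cl_mul ha0 hI.1, Pool.Agent.H24.Cls.cl_mul hb0 hJ.1,
      Pool.Agent.H24.Cls.cl_span, Pool.Agent.H24.Cls.cl_span, one_mul, one_mul] at h1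
    exact h1
  let π : G →* ClassGroup (𝓞 K) := MonoidHom.mk' (fun g => Pool.Agent.H24.Cls.cl (F g)) (by
    intro g g'
    show Pool.Agent.H24.Cls.cl (F (g * g')) = Pool.Agent.H24.Cls.cl (F g) *
      Pool.Agent.H24.Cls.cl (F g')
    rw [← Pool.Agent.H24.Cls.cl_mul (hF g).1 (hF g').1]
    apply hwd _ _ (hF _) (pr_mul.2 ⟨hF g, hF g'⟩)
    rw [hcl, h.mul _ _ (hF g) (hF g'), hcl, hcl])
  have hπ : ∀ g, π g = Pool.Agent.H24.Cls.cl (F g) := fun g => rfl
  have h2 : ∀ I : (Ideal (𝓞 K))⁰, Pr K f (I : Ideal (𝓞 K)) → π (cl I) = ClassGroup.mk0 I := by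
    intro I hI
    rw [hπ, hwd _ _ (hF _) hI (hcl _), Pool.Agent.H24.Cls.cl_of_ne hI.1]
  refine ⟨π, fun c => ?_, h2, fun g => ?_⟩
  · obtain ⟨I, hI, hc⟩ := hCPI K f c hf
    exact ⟨cl I, by rw [h2 I hI, hc]⟩
  · constructor
    · intro hg
      rw [hπ] at hg
      obtain ⟨a, ha⟩ := Pool.Agent.H24.Cls.isPrincipal_of_cl hg
      refine ⟨a, ⟨?_, 0, ?_⟩, ?_⟩
      · rw [← ha]
        exact hF g
      · rw [Nat.div_self hf]
        have h3 : Ideal.span {((1 : ℕ) : 𝓞 K)} = ⊤ := by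
          rw [Nat.cast_one, Ideal.span_singleton_one]
        rw [h3]
        trivial
      · rw [← ha]
        exact hcl g
    · rintro ⟨a, ha, hag⟩
      rw [hπ, hwd _ _ (hF g) ha.1 (by rw [hcl, hag])]
      exact Pool.Agent.H24.Cls.cl_span a

end Pool.Agent.H99.CF
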