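import Pool.Agent.H37.CF.Basic

/-!
# (SPG) prime ideals above a prime number that splits (MP_347b49_nt).  helper99
-/

set_option autoImplicit false

open NumberField
open scoped nonZeroDivisors

namespace Pool.Agent.H99.CF

open Pool.Agent.H31.CN Pool.Agent.H95.CF Pool.Agent.H28.RC Pool.Agent.H37.CF
open Pool.Agent.H24.Cls (Quad)

theorem pf_SPG : T_SPG := by
  intro K _ _ D p hIQ hp hp2 hnrt
  obtain ⟨Q, hQ⟩ := Pool.Agent.H24.Cls.exists_quad K hIQ.deg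
  have hD : Q.t ^ 2 - 4 * Q.n = -(D : ℤ) := by
    have h1 : Q.D = Q.t ^ 2 - 4 * Q.n := rfl
    rw [← h1, hQ, hIQ.dis]
  have hpp : Prime (p : ℤ) := Nat.prime_iff_prime_int.1 hp
  have hpD2 : ¬ (p : ℤ) ∣ 2 := by
    intro h
    have h1 : p ∣ 2 := by exact_mod_cast h
    exact hp2 ((Nat.prime_dvd_prime_iff_eq hp Nat.prime_two).1 h1)
  -- a root that is not zero
  obtain ⟨j, hj, hj0⟩ : ∃ j : ℕ, (p : ℤ) ∣ (j : ℤ) ^ 2 + D ∧ ¬ (p : ℤ) ∣ (j : ℤ) := by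
    unfold nrt at hnrt
    obtain ⟨j1, j2, hne, heq⟩ := Finset.card_eq_two.1 hnrt
    have h1 : j1 ∈ (Finset.range p).filter (fun j : ℕ => (p : ℤ) ∣ 1 * (j : ℤ) ^ 2 + 0 * (j : ℤ) +
        (D : ℤ)) := by
      rw [heq]
      simp
    have h2 : j2 ∈ (Finset.range p).filter (fun j : ℕ => (p : ℤ) ∣ 1 * (j : ℤ) ^ 2 + 0 * (j : ℤ) +
        (D : ℤ)) := by
      rw [heq]
      simp
    rw [Finset.mem_filter, Finset.mem_range, one_mul, zero_mul, add_zero] at h1 h2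
    have hz : ∀ j : ℕ, j < p → (p : ℤ) ∣ (j : ℤ) → j = 0 := by
      intro j hj h
      have h3 : p ∣ j := by exact_mod_cast h
      exact Nat.eq_zero_of_dvd_of_lt h3 hj
    by_cases h3 : j1 = 0
    · refine ⟨j2, h2.2, fun h4 => hne ?_⟩
      rw [h3, hz j2 h2.1 h4]
    · exact ⟨j1, h1.2, fun h4 => h3 (hz j1 h1.1 h4)⟩
  set x : 𝓞 K := 2 * Q.w - Q.t with hx
  have hx2 : x * x = -(D : 𝓞 K) := by
    have h1 : ((Q.t ^ 2 - 4 * Q.n : ℤ) : 𝓞 K) = ((-(D : ℤ) : ℤ) : 𝓞 K) := by rw [hD]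
    push_cast at h1
    rw [hx]
    linear_combination 4 * Q.eqn + h1
  have hprod : (x - (j : 𝓞 K)) * (x + (j : 𝓞 K)) ∈ Ideal.span {(p : 𝓞 K)} := by
    obtain ⟨c, hc⟩ := hj
    have h1 : (x - (j : 𝓞 K)) * (x + (j : 𝓞 K)) = (p : 𝓞 K) * (-(c : 𝓞 K)) := by
      have h2 : (((j : ℤ) ^ 2 + D : ℤ) : 𝓞 K) = ((p * c : ℤ) : 𝓞 K) := by rw [hc]
      push_cast at h2
      linear_combination hx2 - h2
    rw [h1]
    exact Ideal.mul_mem_right _ _ (Ideal.mem_span_singleton_self _)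
  -- coefficients of an element of (p)
  have hcoef : ∀ a b : ℤ, (a : 𝓞 K) + b * Q.w ∈ Ideal.span {(p : 𝓞 K)} → (p : ℤ) ∣ b := by
    intro a b h
    obtain ⟨c, hc⟩ := Ideal.mem_span_singleton.1 h
    obtain ⟨u, v, huv⟩ := Q.gen c
    have h1 : (a : 𝓞 K) + b * Q.w = ((p * u : ℤ) : 𝓞 K) + ((p * v : ℤ) : 𝓞 K) * Q.w := by
      rw [hc, huv]
      push_cast
      ring
    exact ⟨v, (Q.ext h1).2⟩
  have hnp : ¬ (Ideal.span {(p : 𝓞 K)}).IsPrime := by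
    intro h
    rcases h.mem_or_mem hprod with h1 | h1
    · apply hpD2
      apply hcoef (-Q.t - j) 2
      have h2 : ((-Q.t - j : ℤ) : 𝓞 K) + ((2 : ℤ) : 𝓞 K) * Q.w = x - (j : 𝓞 K) := by
        rw [hx]
        push_cast
        ring
      rw [h2]
      exact h1
    · apply hpD2
      apply hcoef (-Q.t + j) 2
      have h2 : ((-Q.t + j : ℤ) : 𝓞 K) + ((2 : ℤ) : 𝓞 K) * Q.w = x + (j : 𝓞 K) := by
        rw [hx]
        push_cast
        ring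
      rw [h2]
      exact h1
  obtain ⟨P, P', hPP, hN, hN'⟩ := Q.split hp hnp
  have hprime : ∀ P : Ideal (𝓞 K), Ideal.absNorm P = p → P.IsPrime := fun P h =>
    Ideal.isPrime_of_irreducible_absNorm (by rw [h]; exact hp)
  refine ⟨P, P', hprime P hN, hprime P' hN', ?_, hN, hN', hPP.symm⟩
  intro heq
  have hPle : Ideal.span {(p : 𝓞 K)} ≤ P := by
    rw [hPP]
    exact Ideal.le_of_dvd (dvd_mul_right P P')
  have hj4 : ∀ s : ℤ, (p : ℤ) ∣ s * 4 * (j : ℤ) → s = 1 ∨ s = -1 → False := by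
    intro s h hs
    have h1 : (p : ℤ) ∣ 2 * (2 * (j : ℤ)) := by
      rcases hs with h2 | h2
      · rw [h2] at h
        have h3 : (1 : ℤ) * 4 * j = 2 * (2 * j) := by ring
        rwa [h3] at h
      · rw [h2] at h
        have h3 : (-1 : ℤ) * 4 * j = -(2 * (2 * j)) := by ring
        rw [h3, dvd_neg] at h
        exact h
    rcases hpp.dvd_or_dvd h1 with h2 | h2
    · exact hpD2 h2
    · rcases hpp.dvd_or_dvd h2 with h3 | h3
      · exact hpD2 h3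
      · exact hj0 h3
  rcases (hprime P hN).mem_or_mem (hPle hprod) with h1 | h1
  · have h2 : (x - (j : 𝓞 K)) * (x - (j : 𝓞 K)) ∈ Ideal.span {(p : 𝓞 K)} := by
      rw [hPP, ← heq]
      exact Ideal.mul_mem_mul h1 h1
    have h3 : (x - (j : 𝓞 K)) * (x - (j : 𝓞 K)) =
        ((-D + j ^ 2 + 2 * j * Q.t : ℤ) : 𝓞 K) + ((-1 * 4 * j : ℤ) : 𝓞 K) * Q.w := by
      have h4 : (x - (j : 𝓞 K)) * (x - (j : 𝓞 K)) = x * x - 2 * j * x + j ^ 2 := by ring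
      rw [h4, hx2, hx]
      push_cast
      ring
    rw [h3] at h2
    exact hj4 (-1) (hcoef _ _ h2) (Or.inr rfl)
  · have h2 : (x + (j : 𝓞 K)) * (x + (j : 𝓞 K)) ∈ Ideal.span {(p : 𝓞 K)} := by
      rw [hPP, ← heq]
      exact Ideal.mul_mem_mul h1 h1
    have h3 : (x + (j : 𝓞 K)) * (x + (j : 𝓞 K)) =
        ((-D + j ^ 2 - 2 * j * Q.t : ℤ) : 𝓞 K) + ((1 * 4 * j : ℤ) : 𝓞 K) * Q.w := by
      have h4 : (x + (j : 𝓞 K)) * (x + (j : 𝓞 K)) = x * x + 2 * j * x + j ^ 2 := by ring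
      rw [h4, hx2, hx]
      push_cast
      ring
    rw [h3] at h2
    exact hj4 1 (hcoef _ _ h2) (Or.inl rfl)

end Pool.Agent.H99.CF
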