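import Pool.Agent.H37.CF.Basic

/-!
# (UNI) the units of an imaginary quadratic field (MP_347b49_nt).  helper99
-/

set_option autoImplicit false

open NumberField
open scoped nonZeroDivisors

namespace Pool.Agent.H99.CF

open Pool.Agent.H31.CN Pool.Agent.H95.CF Pool.Agent.H28.RC Pool.Agent.H37.CF
open Pool.Agent.H24.Cls (Quad)

theorem pf_UNI : T_UNI := by
  intro K _ _ D hIQ
  obtain ⟨Q, hQ⟩ := Pool.Agent.H24.Cls.exists_quad K hIQ.deg
  have hD : Q.t ^ 2 - 4 * Q.n = -(D : ℤ) := by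
    have h1 : Q.D = Q.t ^ 2 - 4 * Q.n := rfl
    rw [← h1, hQ, hIQ.dis]
  have hD4 := hIQ.big
  have key : ∀ α : 𝓞 K, 4 * Ideal.absNorm (Ideal.span {α}) < D → ∃ n : ℤ, α = n := by
    intro α hα
    obtain ⟨a, b, hab⟩ := Q.gen α
    have h1 : Algebra.norm ℤ α = a ^ 2 + Q.t * a * b + Q.n * b ^ 2 := by
      rw [hab]
      exact Q.norm_eq a b
    rw [Ideal.absNorm_span_singleton, h1] at hα
    have h2 : 4 * (a ^ 2 + Q.t * a * b + Q.n * b ^ 2) = (2 * a + Q.t * b) ^ 2 + D * b ^ 2 := by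
      linear_combination (-(b ^ 2)) * hD
    have h3 : (0 : ℤ) ≤ a ^ 2 + Q.t * a * b + Q.n * b ^ 2 := by
      have h4 : (0 : ℤ) ≤ (2 * a + Q.t * b) ^ 2 + D * b ^ 2 := by positivity
      omega
    have h5 : 4 * (a ^ 2 + Q.t * a * b + Q.n * b ^ 2) < (D : ℤ) := by
      have h6 : ((Int.natAbs (a ^ 2 + Q.t * a * b + Q.n * b ^ 2) : ℕ) : ℤ) =
        a ^ 2 + Q.t * a * b + Q.n * b ^ 2 := Int.natAbs_of_nonneg h3
      rw [← h6]
      exact_mod_cast hα
    have hb : b = 0 := by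
      by_contra hb
      have h6 : 1 ≤ b ^ 2 := by
        have h7 : 0 < b ^ 2 := by positivity
        omega
      have h7 : (D : ℤ) * 1 ≤ D * b ^ 2 := mul_le_mul_of_nonneg_left h6 (by positivity)
      have h8 := sq_nonneg (2 * a + Q.t * b)
      rw [h2] at h5
      omega
    refine ⟨a, ?_⟩
    rw [hab, hb]
    simp
  refine ⟨fun u => ?_, key⟩
  have hu : Ideal.absNorm (Ideal.span {(u : 𝓞 K)}) = 1 := by
    rw [Ideal.absNorm_eq_one_iff, Ideal.span_singleton_eq_top]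
    exact u.isUnit
  obtain ⟨n, hn⟩ := key u (by rw [hu]; omega)
  have h1 : Algebra.norm ℤ (u : 𝓞 K) = n ^ 2 := by
    have h2 := Q.norm_eq n 0
    simp only [Int.cast_zero, zero_mul, add_zero] at h2
    rw [hn, h2]
    ring
  rw [Ideal.absNorm_span_singleton, h1] at hu
  have h3 : n ^ 2 = 1 := by
    have h4 : ((Int.natAbs (n ^ 2) : ℕ) : ℤ) = n ^ 2 := Int.natAbs_of_nonneg (sq_nonneg n)
    rw [← h4, hu]
    rfl
  have h5 : n = 1 ∨ n = -1 := by
    have h6 : (n - 1) * (n + 1) = 0 := by linear_combination h3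
    rcases mul_eq_zero.1 h6 with h | h
    · left
      omega
    · right
      omega
  rcases h5 with h | h
  · left
    apply Units.ext
    rw [hn, h]
    simp
  · right
    apply Units.ext
    rw [hn, h]
    simp

end Pool.Agent.H99.CF
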