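import Pool.Agent.H37.CF.Basic

/-!
# (CGR) ray class characters at congruent numbers (MP_347b49_nt).  helper99
-/

set_option autoImplicit false

open NumberField
open scoped nonZeroDivisors

namespace Pool.Agent.H99.CF

open Pool.Agent.H31.CN Pool.Agent.H95.CF Pool.Agent.H28.RC Pool.Agent.H37.CF

lemma cgr_sg_mul (K : Type) [Field K] [NumberField K] (S : Finset (RP K)) (x y : K) (hx : x ≠ 0)
    (hy : y ≠ 0) : sg K S (x * y) = sg K S x * sg K S y := by
  unfold sg
  rw [← Finset.prod_mul_distrib]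
  refine Finset.prod_congr rfl fun v _ => ?_
  have h1 : re v (x * y) = re v x * re v y := by
    unfold re
    exact map_mul _ _ _
  have h2 : re v x ≠ 0 := by
    unfold re
    intro h
    exact hx ((map_eq_zero _).1 h)
  have h3 : re v y ≠ 0 := by
    unfold re
    intro h
    exact hy ((map_eq_zero _).1 h)
  rw [h1]
  rcases lt_or_gt_of_ne h2 with h4 | h4 <;> rcases lt_or_gt_of_ne h3 with h5 | h5
  · rw [if_pos (mul_pos_of_neg_of_neg h4 h5), if_neg (not_lt.2 h4.le), if_neg (not_lt.2 h5.le)]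
    norm_num
  · rw [if_neg (not_lt.2 (mul_neg_of_neg_of_pos h4 h5).le), if_neg (not_lt.2 h4.le), if_pos h5]
    norm_num
  · rw [if_neg (not_lt.2 (mul_neg_of_pos_of_neg h4 h5).le), if_pos h4, if_neg (not_lt.2 h5.le)]
    norm_num
  · rw [if_pos (mul_pos h4 h5), if_pos h4, if_pos h5]
    norm_num

theorem pf_CGR : T_CGR := by
  intro K _ _ χ a b ha hb hcop hab
  -- an inverse modulo the conductor
  obtain ⟨c, hc0, hc⟩ : ∃ c : 𝓞 K, c ≠ 0 ∧ a * c - 1 ∈ χ.f := by
    have h1 := hcop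
    rw [Ideal.eq_top_iff_one] at h1
    obtain ⟨x, hx, y, hy, hxy⟩ := Submodule.mem_sup.1 h1
    obtain ⟨c, rfl⟩ := Ideal.mem_span_singleton.1 hx
    by_cases h2 : c = 0
    · rw [h2, mul_zero, zero_add] at hxy
      have h3 : χ.f = ⊤ := by
        rw [Ideal.eq_top_iff_one, ← hxy]
        exact hy
      exact ⟨1, one_ne_zero, by rw [h3]; trivial⟩
    · refine ⟨c, h2, ?_⟩
      have h3 : a * c - 1 = -y := by
        rw [← hxy]
        ring
      rw [h3]
      exact (Ideal.neg_mem_iff _).2 hy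
  have hbc : b * c - 1 ∈ χ.f := by
    have h1 : b * c - 1 = (a * c - 1) - (a - b) * c := by ring
    rw [h1]
    exact χ.f.sub_mem hc (Ideal.mul_mem_right _ _ hab)
  have h1 := χ.princ (a * c) (mul_ne_zero ha hc0) hc
  have h2 := χ.princ (b * c) (mul_ne_zero hb hc0) hbc
  rw [← Ideal.span_singleton_mul_span_singleton, χ.map_mul] at h1 h2
  have ha' : (a : K) ≠ 0 := by exact_mod_cast ha
  have hb' : (b : K) ≠ 0 := by exact_mod_cast hb
  have hc' : (c : K) ≠ 0 := by exact_mod_cast hc0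
  have h3 : ((a * c : 𝓞 K) : K) = (a : K) * (c : K) := by push_cast; rfl
  have h4 : ((b * c : 𝓞 K) : K) = (b : K) * (c : K) := by push_cast; rfl
  rw [h3, cgr_sg_mul K χ.S _ _ ha' hc'] at h1
  rw [h4, cgr_sg_mul K χ.S _ _ hb' hc'] at h2
  have hψ : χ.ψ (Ideal.span {c}) ≠ 0 := by
    have h5 : ‖χ.ψ (Ideal.span {c})‖ = 1 := by
      apply χ.norm_one
      · rwa [Ne, Ideal.span_singleton_eq_bot]
      · rw [Ideal.eq_top_iff_one]
        have h6 : (1 : 𝓞 K) = c * a + -(a * c - 1) := by ring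
        rw [h6]
        exact Submodule.add_mem_sup (Ideal.mul_mem_right _ _ (Ideal.mem_span_singleton_self _))
          ((Ideal.neg_mem_iff _).2 hc)
    intro h6
    rw [h6, norm_zero] at h5
    exact zero_ne_one h5
  have h5 : (χ.ψ (Ideal.span {a}) * sg K χ.S b) * χ.ψ (Ideal.span {c}) =
      (χ.ψ (Ideal.span {b}) * sg K χ.S a) * χ.ψ (Ideal.span {c}) := by
    calc (χ.ψ (Ideal.span {a}) * sg K χ.S b) * χ.ψ (Ideal.span {c})
        = (χ.ψ (Ideal.span {a}) * χ.ψ (Ideal.span {c})) * sg K χ.S b := by ring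
      _ = (χ.ψ (Ideal.span {b}) * χ.ψ (Ideal.span {c})) * sg K χ.S a := by
          rw [h1, h2]
          ring
      _ = _ := by ring
  exact mul_right_cancel₀ hψ h5

end Pool.Agent.H99.CF
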